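import Pool.Agent.NPG.StmtsD

/-!
# NPY, row RNG: rings around a coset outside `G`
-/

set_option autoImplicit false

open MeasureTheory Set Topology

namespace Pool.Agent.NPY.H77

open Pool.Agent.LSG Pool.Agent.NPY

/-- Cylinders. -/
def cy (n : ℕ) (p : K) : Set K := {x | ∀ i < n, x i = p i}

theorem cy_clopen (n : ℕ) (s : K) : IsClopen (cy n s) := by
  have h : cy n s = ⋂ i ∈ Finset.range n, {x : K | x i = s i} := by
    ext x
    simp [cy]
  rw [h]
  apply isClopen_biInter_finset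
  intro i _
  have h2 : {x : K | x i = s i} = (fun x : K => x i) ⁻¹' {s i} := rfl
  rw [h2]
  exact (isClopen_discrete {s i}).preimage (continuous_apply i)

theorem mem_cy_self (n : ℕ) (p : K) : p ∈ cy n p := fun _ _ => rfl

/-- A point outside of `G` all whose cylinders meet `W` in positive measure. -/
theorem ex_point (hM : MukStmt) (hN : GntStmt) (G : AddSubgroup K) (hG : Big G) (W : Set K)
    (hW : MeasurableSet W) (hW0 : 0 < mu W) : ∃ p : K, p ∉ G ∧ ∀ n, 0 < mu (W ∩ cy n p) := by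
  obtain ⟨_, htr, _, _⟩ := hM
  by_contra hcon
  push Not at hcon
  obtain ⟨s, hs⟩ : ∃ s : Set K, s = {x | x ∈ W ∧ ∃ n, mu (W ∩ cy n x) = 0} := ⟨_, rfl⟩
  have hs0 : mu s = 0 := by
    apply measure_null_of_locally_null
    intro x hx
    rw [hs] at hx
    obtain ⟨hxW, n, hn⟩ := hx
    refine ⟨W ∩ cy n x, ?_, hn⟩
    rw [mem_nhdsWithin]
    refine ⟨cy n x, (cy_clopen n x).isOpen, mem_cy_self n x, ?_⟩
    rintro y ⟨hy1, hy2⟩
    rw [hs] at hy2
    exact ⟨hy2.1, hy1⟩
  obtain ⟨E, hE⟩ : ∃ E : Set K, E = W \ toMeasurable mu s := ⟨_, rfl⟩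
  have hEm : MeasurableSet E := by
    rw [hE]
    exact hW.diff (measurableSet_toMeasurable mu s)
  have hE0 : 0 < mu E := by
    rw [hE, measure_sdiff_null]
    · exact hW0
    · rw [measure_toMeasurable, hs0]
  have hEG : ∀ x ∈ E, x ∈ G := by
    intro x hx
    rw [hE] at hx
    by_contra hxG
    obtain ⟨n, hn⟩ := hcon x hxG
    apply hx.2
    apply subset_toMeasurable mu s
    rw [hs]
    exact ⟨hx.1, n, le_antisymm hn bot_le⟩
  obtain ⟨p₀, hp₀⟩ : ∃ p₀ : K, p₀ ∉ G := by
    by_contra h1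
    push Not at h1
    exact hN G hG (eq_top_iff.2 fun x _ => h1 x)
  have hFm : MeasurableSet ((fun y : K => p₀ + y) ⁻¹' E) :=
    (continuous_const.add continuous_id).measurable hEm
  obtain ⟨g, hg, hgE⟩ := hG.full _ hFm (by rw [htr]; exact hE0)
  have h2 : p₀ + g ∈ G := hEG _ hgE
  apply hp₀
  have h3 := G.sub_mem h2 hg
  rwa [add_sub_cancel_right] at h3

theorem rng (hM : MukStmt) (hN : GntStmt) : RngStmt := by
  intro G hG H hH hHG W hW hW0
  obtain ⟨p, hpG, hp⟩ := ex_point hM hN G hG W hW hW0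
  obtain ⟨_, _, hpt, _⟩ := hM
  obtain ⟨C, hC⟩ : ∃ C : ℕ → Set K, ∀ n x, x ∈ C n ↔ ∃ h ∈ H, ∀ i < n, x i = (p + h) i :=
    ⟨fun n => {x | ∃ h ∈ H, ∀ i < n, x i = (p + h) i}, fun n x => Iff.rfl⟩
  have hCcl : ∀ n, IsClopen (C n) := by
    intro n
    have h1 : C n = ⋃ h ∈ (H : Set K), cy n (p + h) := by
      ext x
      rw [hC, Set.mem_iUnion₂]
      constructor
      · rintro ⟨h, hh, hx⟩
        exact ⟨h, hh, hx⟩
      · rintro ⟨h, hh, hx⟩
        exact ⟨h, hh, hx⟩
    rw [h1]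
    exact hH.isClopen_biUnion fun h _ => cy_clopen n (p + h)
  have hC0 : ∀ x, x ∈ C 0 := by
    intro x
    rw [hC]
    exact ⟨0, H.zero_mem, fun i hi => absurd hi (Nat.not_lt_zero i)⟩
  have hCanti : ∀ m n, m ≤ n → C n ⊆ C m := by
    intro m n hmn x hx
    rw [hC] at hx ⊢
    obtain ⟨h, hh, hx⟩ := hx
    exact ⟨h, hh, fun i hi => hx i (lt_of_lt_of_le hi hmn)⟩
  have hCinv : ∀ n x h, h ∈ H → x ∈ C n → x + h ∈ C n := by
    intro n x h hh hx
    rw [hC] at hx ⊢
    obtain ⟨h', hh', hx⟩ := hx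
    refine ⟨h' + h, H.add_mem hh' hh, fun i hi => ?_⟩
    rw [Pi.add_apply, hx i hi, ← add_assoc, Pi.add_apply (p + h') h]
  have hCall : ∀ x, (∀ n, x ∈ C n) → x - p ∈ H := by
    intro x hx
    by_contra hcon
    have h1 : ∀ h : K, ∃ i : ℕ, h ∈ H → x i ≠ (p + h) i := by
      intro h
      by_cases hh : h ∈ H
      · by_contra h2
        push Not at h2
        apply hcon
        have h3 : x = p + h := funext fun i => (h2 i).2
        rw [h3, add_sub_cancel_left]
        exact hh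
      · exact ⟨0, fun h2 => absurd h2 hh⟩
    choose ii hii using h1
    obtain ⟨h, hh, hx2⟩ := (hC _ x).1 (hx (hH.toFinset.sup ii + 1))
    apply hii h hh
    apply hx2
    have h2 : ii h ≤ hH.toFinset.sup ii := Finset.le_sup (hH.mem_toFinset.2 hh)
    omega
  have hleast : ∀ x N, x ∈ C N → (¬ ∀ n, x ∈ C n) → ∃ n ≥ N, x ∈ C n \ C (n + 1) := by
    classical
    intro x N hxN hx
    push Not at hx
    obtain ⟨m, hm⟩ : ∃ m, m = Nat.find hx := ⟨_, rfl⟩
    have hm1 : x ∉ C m := by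
      rw [hm]
      exact Nat.find_spec hx
    have hm2 : ∀ j < m, x ∈ C j := by
      intro j hj
      rw [hm] at hj
      have h2 := Nat.find_min hx hj
      push Not at h2
      exact h2
    have hNm : N < m := by
      by_contra h2
      push Not at h2
      exact hm1 (hCanti m N h2 hxN)
    refine ⟨m - 1, by omega, hm2 _ (by omega), ?_⟩
    have h3 : m - 1 + 1 = m := by omega
    rw [h3]
    exact hm1
  refine ⟨fun n => C n \ C (n + 1), ⟨?_, ?_, ?_, ?_⟩, ?_⟩
  · intro n
    exact (hCcl n).diff (hCcl (n + 1))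
  · have key : ∀ n m, n < m → Disjoint (C n \ C (n + 1)) (C m \ C (m + 1)) := by
      intro n m hnm
      rw [Set.disjoint_left]
      intro x hx1 hx2
      exact hx1.2 (hCanti (n + 1) m hnm hx2.1)
    intro n m hnm
    rcases lt_or_gt_of_ne hnm with h | h
    · exact key n m h
    · exact (key m n h).symm
  · intro x hx
    obtain ⟨n, _, hn⟩ := hleast x 0 (hC0 x) (by
      intro h1
      apply hpG
      have h2 := G.sub_mem hx (hHG (hCall x h1))
      rwa [sub_sub_cancel] at h2)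
    exact ⟨n, hn⟩
  · intro n x hx h hh
    refine ⟨hCinv n x h hh hx.1, fun h1 => hx.2 ?_⟩
    have h2 := hCinv (n + 1) (x + h) (-h) (H.neg_mem hh) h1
    rwa [add_neg_cancel_right] at h2
  · intro N
    by_contra hcon
    push Not at hcon
    have h1 : W ∩ cy N p ⊆ (⋃ n : {n : ℕ // N ≤ n}, W ∩ (C n \ C (n + 1))) ∪
        ⋃ h ∈ (H : Set K), {p + h} := by
      rintro x ⟨hxW, hxc⟩
      have hxN : x ∈ C N := by
        rw [hC]
        exact ⟨0, H.zero_mem, fun i hi => by rw [add_zero]; exact hxc i hi⟩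
      by_cases hx : ∀ n, x ∈ C n
      · right
        rw [Set.mem_iUnion₂]
        refine ⟨x - p, hCall x hx, ?_⟩
        rw [Set.mem_singleton_iff, add_sub_cancel]
      · left
        obtain ⟨n, hn, hxn⟩ := hleast x N hxN hx
        exact Set.mem_iUnion.2 ⟨⟨n, hn⟩, hxW, hxn⟩
    have h2 : mu ((⋃ n : {n : ℕ // N ≤ n}, W ∩ (C n \ C (n + 1))) ∪
        ⋃ h ∈ (H : Set K), {p + h}) = 0 := by
      rw [measure_union_null_iff]
      constructor
      · rw [measure_iUnion_null_iff]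
        intro n
        exact le_antisymm (hcon n.1 n.2) bot_le
      · rw [measure_biUnion_null_iff hH.countable]
        intro h _
        exact hpt (p + h)
    have h3 := measure_mono_null h1 h2
    exact absurd h3 (hp N).ne'

end Pool.Agent.NPY.H77
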